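import Pool.Agent.Helper77.PPB.Goals2
import Pool.Agent.Helper38.FD.Split
import Pool.Agent.Helper79.PP.PVIS

/-!
# Project PPB (MP_fc6b1e_nt): packet B_KUM

The Kummer generator of the base character.
-/

set_option autoImplicit false

namespace Pool.Agent.Helper50.PPB

open NumberField Polynomial Module IsDedekindDomain
open Pool.Agent.Helper51.RP Pool.Agent.Helper42.RD Pool.Agent.Helper11.LE Pool.Agent.Helper11.PP
open Pool.Agent.Helper38.FD (Chr CutsOut isGalois_of_cutsOut exists_faithful exists_lift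
  exists_restricts Restricts fix_sup pow_card_desc free_of_splits)
open Pool.Agent.Helper42.PP (LocS)
open Pool.Agent.Helper42.PP1 (SitW)
open Pool.Agent.Helper42.PB (SitB SitBs)
open Pool.Agent.Helper40.RS (bel)
open Pool.Agent.Helper40.RD (bel_of_above)
open Pool.Agent.Helper79.PP (free_bel)

section fields

variable {K Ω : Type} [Field K] [Field Ω] [Algebra K Ω] [IsGalois K Ω]

/-- An element fixed by all the automorphisms which fix `H` is in `H`. -/
theorem mem_of_fix (H : IntermediateField K Ω) (x : Ω)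
    (h : ∀ g : Ω ≃ₐ[K] Ω, (∀ y ∈ H, g y = y) → g x = x) : x ∈ H := by
  rw [← InfiniteGalois.fixedField_fixingSubgroup H, IntermediateField.mem_fixedField_iff]
  intro g hg
  exact h g ((IntermediateField.mem_fixingSubgroup_iff _ _).1 hg)

theorem le_of_fix (J F : IntermediateField K Ω)
    (h : ∀ g : Ω ≃ₐ[K] Ω, (∀ y ∈ F, g y = y) → ∀ x ∈ J, g x = x) : J ≤ F :=
  fun x hx => mem_of_fix F x fun g hg => h g hg x hx

/-- The Galois group of the field of a character is cyclic. -/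
theorem cyc_of_cutsOut {k : Type} [NormedField k] {χ : Chr K Ω k} {H : IntermediateField K Ω}
    [FiniteDimensional K H] (h : CutsOut χ H) : IsCyclic (H ≃ₐ[K] H) := by
  obtain ⟨χ', hinj, -⟩ := exists_faithful h
  exact isCyclic_of_injective_ringHom ((Units.coeHom k).comp χ')
    (Units.val_injective.comp hinj)

end fields

section range

variable {K M₁ Ω : Type} [Field K] [Field M₁] [Algebra K M₁] [Field Ω] [Algebra K Ω]

/-- The image of a Galois extension is Galois. -/
theorem galois_range [IsGalois K M₁] (j : M₁ →ₐ[K] Ω) : IsGalois K j.fieldRange :=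
  IsGalois.of_algEquiv (AlgEquiv.ofInjectiveField j)

end range

section comm

/-- If `δ` generates the Galois group then it is commutative. -/
theorem comm_of_ord {K M : Type} [Field K] [Field M] [Algebra K M] [FiniteDimensional K M]
    [IsGalois K M] (δ : M ≃ₐ[K] M) (h : orderOf δ = finrank K M) (a b : M ≃ₐ[K] M) :
    a * b = b * a := by
  have h1 : IsCyclic (M ≃ₐ[K] M) := isCyclic_of_orderOf_eq_card δ (by
    rw [h, IsGalois.card_aut_eq_finrank])
  let _ : CommGroup (M ≃ₐ[K] M) := IsCyclic.commGroup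
  exact mul_comm a b

/-- The Galois group of `K(ε)` is commutative. -/
theorem comm_of_gen {K K₁ : Type} [Field K] [Field K₁] [Algebra K K₁] {p : ℕ} [NeZero p] (ε : K₁)
    (hε : IsPrimitiveRoot ε p) (gen : ∀ σ : K₁ ≃ₐ[K] K₁, σ ε = ε → σ = 1) (a b : K₁ ≃ₐ[K] K₁) :
    a * b = b * a := by
  have h1 : ∀ σ : K₁ ≃ₐ[K] K₁, ∃ i : ℕ, σ ε = ε ^ i := by
    intro σ
    obtain ⟨i, -, hi⟩ := hε.eq_pow_of_pow_eq_one (ξ := σ ε) (by rw [← map_pow, hε.pow_eq_one, map_one])
    exact ⟨i, hi.symm⟩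
  obtain ⟨i, hi⟩ := h1 a
  obtain ⟨k, hk⟩ := h1 b
  have h2 : (b * a)⁻¹ * (a * b) = 1 := by
    apply gen
    have h3 : (a * b) ε = (b * a) ε := by
      show a (b ε) = b (a ε)
      rw [hk, hi, map_pow, map_pow, hi, hk, ← pow_mul, ← pow_mul, mul_comm]
    show (b * a)⁻¹ ((a * b) ε) = ε
    rw [h3]
    show ((b * a)⁻¹ * (b * a)) ε = ε
    rw [inv_mul_cancel]; rfl
  exact (inv_mul_eq_one.1 h2).symm

end comm

section commute

/-- The automorphisms commute on the compositum of `M₁` (embedded by `j₁`) and of fields of characters. -/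
theorem comm_sup (p : ℕ) [Fact p.Prime] (K M K₁ M₁ : Type) [Field K] [NumberField K] [Field M]
    [NumberField M] [Field K₁] [NumberField K₁] [Field M₁] [NumberField M₁] [Algebra K M]
    [Algebra K K₁] [Algebra K M₁] [Algebra M M₁] [Algebra K₁ M₁] (ε : K₁) (δ : M ≃ₐ[K] M)
    (P : (ZMod p)[X]) (hS : SitW p K M K₁ M₁ ε δ P) (j₁ : M₁ →+* AlgebraicClosure K)
    (E₁ : IntermediateField K (AlgebraicClosure K))
    (hj : ∀ x : K, j₁ (algebraMap K M₁ x) = algebraMap K (AlgebraicClosure K) x)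
    (hE : ∀ y, y ∈ E₁ ↔ ∃ x, j₁ x = y) (g h : AlgebraicClosure K ≃ₐ[K] AlgebraicClosure K) :
    ∀ x ∈ E₁, ((h * g)⁻¹ * (g * h)) x = x := by
  have s1 := hS.st1
  have s2 := hS.st2
  have gM := hS.gM
  have gK := hS.gK
  have gMK := hS.gMK
  have n1 : NeZero p := ⟨(Fact.out : p.Prime).ne_zero⟩
  let _ : Algebra M₁ (AlgebraicClosure K) := j₁.toAlgebra
  have s3 : IsScalarTower K M₁ (AlgebraicClosure K) := IsScalarTower.of_algebraMap_eq fun x =>
    (hj x).symm
  have fM : FiniteDimensional K M := Module.Finite.of_restrictScalars_finite ℚ K M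
  let R : (AlgebraicClosure K ≃ₐ[K] AlgebraicClosure K) →* (M₁ ≃ₐ[K] M₁) :=
    AlgEquiv.restrictNormalHom M₁
  have hR : ∀ (c : AlgebraicClosure K ≃ₐ[K] AlgebraicClosure K) (x : M₁), j₁ (R c x) = c (j₁ x) :=
    fun c x => AlgEquiv.restrictNormal_commutes c M₁ x
  let RM : (M₁ ≃ₐ[K] M₁) →* (M ≃ₐ[K] M) := AlgEquiv.restrictNormalHom M
  have hRM : ∀ (c : M₁ ≃ₐ[K] M₁) (x : M), algebraMap M M₁ (RM c x) = c (algebraMap M M₁ x) :=
    fun c x => AlgEquiv.restrictNormal_commutes c M x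
  let RK : (M₁ ≃ₐ[K] M₁) →* (K₁ ≃ₐ[K] K₁) := AlgEquiv.restrictNormalHom K₁
  have hRK : ∀ (c : M₁ ≃ₐ[K] M₁) (x : K₁), algebraMap K₁ M₁ (RK c x) = c (algebraMap K₁ M₁ x) :=
    fun c x => AlgEquiv.restrictNormal_commutes c K₁ x
  have h1 : R ((h * g)⁻¹ * (g * h)) = 1 := by
    apply hS.lin
    · intro x
      rw [← hRM]
      have e : RM (R ((h * g)⁻¹ * (g * h))) = 1 := by
        simp only [map_mul, map_inv]
        rw [comm_of_ord δ hS.ord (RM (R h)) (RM (R g)), inv_mul_cancel]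
      rw [e]; rfl
    · intro x
      rw [← hRK]
      have e : RK (R ((h * g)⁻¹ * (g * h))) = 1 := by
        simp only [map_mul, map_inv]
        rw [comm_of_gen ε hS.prim hS.gen (RK (R h)) (RK (R g)), inv_mul_cancel]
      rw [e]; rfl
  intro x hx
  obtain ⟨y, rfl⟩ := (hE x).1 hx
  rw [← hR, h1]; rfl

theorem comm_chr {K k : Type} [Field K] [NormedField k] {χ : Chr K (AlgebraicClosure K) k}
    {H : IntermediateField K (AlgebraicClosure K)} (hc : CutsOut χ H)
    (g h : AlgebraicClosure K ≃ₐ[K] AlgebraicClosure K) :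
    ∀ x ∈ H, ((h * g)⁻¹ * (g * h)) x = x := by
  apply (hc _).1
  rw [map_mul, map_inv, map_mul, map_mul, mul_comm (χ h), inv_mul_cancel]

end commute

/-- Trivial decomposition groups in a subfield. -/
theorem free_sub {K : Type} [Field K] [NumberField K] (p : ℕ)
    (J F : IntermediateField K (AlgebraicClosure K)) [NumberField J] [NumberField F]
    [IsGalois K J] [IsGalois K F] (hle : J ≤ F)
    (hF : ∀ v : HeightOneSpectrum (𝓞 K), (p : 𝓞 K) ∈ v.asIdeal →
      ∀ V : HeightOneSpectrum (𝓞 F), Above V v → FreeP K V)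
    (w : HeightOneSpectrum (𝓞 J)) (hw : w.valuation J (p : J) < 1) : FreeP K w := by
  let _ : Algebra J F := (IntermediateField.inclusion hle).toRingHom.toAlgebra
  have hst : IsScalarTower K J F := IsScalarTower.of_algebraMap_eq fun x => rfl
  obtain ⟨V, hV⟩ := exists_bel (M₁ := F) w
  have hp : (p : 𝓞 K) ∈ (bel K V).asIdeal := by
    rw [← bel_bel (M := J) V, hV]
    have h1 : (p : 𝓞 J) ∈ w.asIdeal := by
      refine (w.valuation_lt_one_iff_mem (K := J) (p : 𝓞 J)).1 ?_
      have e : (((p : 𝓞 J)) : J) = (p : J) := by push_cast; rfl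
      have h2 : w.valuation J (((p : 𝓞 J)) : J) < 1 := by rw [e]; exact hw
      exact h2
    show algebraMap (𝓞 K) (𝓞 J) (p : 𝓞 K) ∈ w.asIdeal
    rw [map_natCast]
    exact h1
  have h3 := hF (bel K V) hp V rfl
  rw [← hV]
  exact free_bel V h3

theorem b_kum (h1 : Pool.Agent.Helper77.PPB.B_KU1) (h2 : Pool.Agent.Helper77.PPB.B_KU2)
    (h3 : Pool.Agent.Helper77.PPB.B_KU4) (h4 : Pool.Agent.Helper77.PPB.B_KU5) :
    Pool.Agent.Helper77.PPB.B_KUM := by
  intro p _ K M K₁ M₁ _ _ _ _ _ _ _ _ _ _ _ _ _ ε δ P hS j₁ E₁ hj hE εk hεk ψ₀ F₀ hF₀ hdeg hspl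
    J M₂ _ _ _ _ _ _ a1 a2 a3 a4 hJ hM₂
  have gMK := hS.gMK
  obtain ⟨l, hl⟩ := hdeg
  have hpos : 0 < p := (Fact.out : p.Prime).pos
  have fF₀ : FiniteDimensional K F₀ := FiniteDimensional.of_finrank_pos
    (by rw [hl]; exact pow_pos hpos l)
  have nF₀ : NumberField F₀ := NumberField.of_module_finite K F₀
  have gF₀ : IsGalois K F₀ := isGalois_of_cutsOut hF₀
  have gJ : IsGalois K J := isGalois_of_cutsOut hJ
  have fJ : FiniteDimensional K J := Module.Finite.of_restrictScalars_finite ℚ K J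
  have hJF : J ≤ F₀ := by
    refine le_of_fix J F₀ fun g hg => (hJ g).1 ?_
    rw [MonoidHom.pow_apply, (hF₀ g).2 hg, one_pow]
  have hfree : ∀ v : HeightOneSpectrum (𝓞 K), (p : 𝓞 K) ∈ v.asIdeal →
      ∀ V : HeightOneSpectrum (𝓞 F₀), Above V v → FreeP K V :=
    fun v hv V hV => free_of_splits v (hspl v hv) V hV
  have hJM : J ≤ M₂ := by rw [hM₂]; exact le_sup_right
  have hEM : E₁ ≤ M₂ := by rw [hM₂]; exact le_sup_left
  -- the field `E₁`
  let j : M₁ →ₐ[K] AlgebraicClosure K := { j₁ with commutes' := hj }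
  have hjE : E₁ = j.fieldRange := by
    ext y
    rw [hE, AlgHom.mem_fieldRange]
    rfl
  have gE₁ : IsGalois K E₁ := by rw [hjE]; exact galois_range j
  have gM₂ : IsGalois K M₂ := by
    have n1 : Normal K E₁ := gE₁.to_normal
    have n2 : Normal K J := gJ.to_normal
    have n3 : Normal K ((E₁ ⊔ J : IntermediateField K (AlgebraicClosure K))) := inferInstance
    have n4 : Normal K M₂ := by rw [hM₂]; exact n3
    exact { to_isSeparable := inferInstance, to_normal := n4 }
  have hst1 := hS.st2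
  -- the root of unity
  have hε₂ : IsPrimitiveRoot (algebraMap K₁ M₂ ε) p :=
    hS.prim.map_of_injective (algebraMap K₁ M₂).injective
  have hεE : ((algebraMap K₁ M₂ ε : M₂) : AlgebraicClosure K) ∈ E₁ := by
    rw [hE, a2]; exact ⟨_, rfl⟩
  -- commuting
  have hcomm : ∀ (g h : AlgebraicClosure K ≃ₐ[K] AlgebraicClosure K), ∀ x ∈ M₂ ⊔ F₀,
      g (h x) = h (g x) := by
    intro g h x hx
    have c1 := comm_sup p K M K₁ M₁ ε δ P hS j₁ E₁ hj hE g h
    have c2 := comm_chr hJ g h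
    have c3 := comm_chr hF₀ g h
    have c4 : ∀ x ∈ M₂, ((h * g)⁻¹ * (g * h)) x = x := by
      rw [hM₂]; exact fix_sup _ c1 c2
    have c5 := fix_sup _ c4 c3 x hx
    have c6 : (h * g) (((h * g)⁻¹ * (g * h)) x) = (h * g) x := by rw [c5]
    have c7 : (h * g) (((h * g)⁻¹ * (g * h)) x) = (g * h) x := by
      show ((h * g) * ((h * g)⁻¹ * (g * h))) x = _
      rw [mul_inv_cancel_left]
    rw [c7] at c6
    exact c6
  have hpp : ∀ g, (∀ x ∈ M₂, g x = x) → ψ₀ g ^ p = 1 := by
    intro g hg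
    rw [← MonoidHom.pow_apply]
    exact (hJ g).2 fun x hx => hg x (hJM hx)
  obtain ⟨a₀, s₀, hs1, hs2, hs3⟩ := h1 p K M₂ F₀ ψ₀ hF₀ hpp (algebraMap K₁ M₂ ε) hε₂ εk hεk
  have hpow : ∃ l : ℕ, ψ₀ ^ p ^ l = 1 := by
    refine ⟨l, ?_⟩
    ext1 g
    rw [MonoidHom.pow_apply, ← hl, pow_card_desc hF₀ g]; rfl
  refine ⟨a₀, s₀, ?_, hs1, hs2, ?_⟩
  · exact
    { sit := hS
      t1 := IsScalarTower.of_algebraMap_eq fun x => Subtype.ext (by rw [a3, hj]; rfl)
      t2 := IsScalarTower.of_algebraMap_eq fun x => Subtype.ext (by rw [a3, a1])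
      t3 := IsScalarTower.of_algebraMap_eq fun x => Subtype.ext (by rw [a3, a2])
      t4 := IsScalarTower.of_algebraMap_eq fun x => Subtype.ext (by rw [a4]; rfl)
      gJ := gJ
      gM₂ := gM₂
      cycJ := cyc_of_cutsOut hJ
      degJ := by
        have hd := IntermediateField.finrank_dvd_of_le_right hJF
        rw [hl] at hd
        obtain ⟨m, -, hm⟩ := (Nat.dvd_prime_pow (Fact.out : p.Prime)).1 hd
        exact ⟨m, hm⟩
      lin₂ := by
        intro g hg1 hg2
        obtain ⟨g', hg'⟩ := exists_lift g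
        have b1 : ∀ x ∈ E₁, g' x = x := by
          intro x hx
          obtain ⟨y, rfl⟩ := (hE x).1 hx
          have := hg' (algebraMap M₁ M₂ y)
          rw [hg1] at this
          have e : algebraMap M₂ (AlgebraicClosure K) (algebraMap M₁ M₂ y) = j₁ y := a3 y
          rw [e] at this
          exact this
        have b2 : ∀ x ∈ J, g' x = x := by
          intro x hx
          have := hg' (algebraMap J M₂ ⟨x, hx⟩)
          rw [hg2] at this
          have e : algebraMap M₂ (AlgebraicClosure K) (algebraMap J M₂ ⟨x, hx⟩) = x := a4 ⟨x, hx⟩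
          rw [e] at this
          exact this
        have b3 : ∀ x ∈ M₂, g' x = x := by rw [hM₂]; exact fix_sup _ b1 b2
        ext x
        have := hg' x
        exact this.symm.trans (b3 x x.2)
      splJ := fun w hw => free_sub p J F₀ hJF hfree w hw
      om := h3 p K M₂ F₀ hcomm (algebraMap K₁ M₂ ε) hε₂ a₀ s₀ hs1 hs2
      powp := h2 p K M₂ F₀ hfree a₀ s₀ hs2 hs1
      cyc := by
        intro σ hσ hσ1 c hc
        refine h4 p K E₁ J M₂ hM₂ ψ₀ hJ hpow (algebraMap K₁ M₂ ε) hε₂ hεE εk a₀ s₀ hs2 hs3 σ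
          ?_ hσ1 c hc
        intro x hx
        obtain ⟨y, hy⟩ := (hE _).1 hx
        have e : x = algebraMap M₁ M₂ y := Subtype.ext (by rw [a3, hy])
        rw [e, hσ] }
  · intro g hg i hi
    refine hs3 g hg i ?_
    rw [a2]; exact hi

end Pool.Agent.Helper50.PPB
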